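import Pool.Agent.H56.EH.Def

/-!
# Module KER (MP_737bdd_co): the kernel inequality
-/

set_option autoImplicit false

namespace Pool.Agent.H42.EH

open Finset Pool.Agent.H56.EH

variable {L : ℕ} [NeZero L]

lemma hd_comm (w w' : ZMod (2 * L) → Bool) : hd w w' = hd w' w := by
  unfold hd
  congr 1
  ext i
  simp [ne_comm]

lemma hd_triangle (w w' w'' : ZMod (2 * L) → Bool) : hd w w'' ≤ hd w w' + hd w' w'' := by
  unfold hd
  refine (Finset.card_le_card ?_).trans (Finset.card_union_le _ _)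
  intro i hi
  simp only [mem_filter, mem_univ, true_and, mem_union] at hi ⊢
  by_contra h
  push Not at h
  exact hi (h.1.trans h.2)

lemma hd_opp (w w' : ZMod (2 * L) → Bool) : hd (opp w) (opp w') = hd w w' := by
  unfold hd opp
  congr 1
  ext i
  simp

omit [NeZero L] in
lemma opp_opp (w : ZMod (2 * L) → Bool) : opp (opp w) = w := by
  funext i; simp [opp]

lemma hd_opp_left (w w' : ZMod (2 * L) → Bool) : hd (opp w) w' = hd w (opp w') := by
  conv_rhs => rw [← hd_opp]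
  rw [opp_opp]

lemma opp_oc (b : ZMod (2 * L)) : opp (oc L b) = oc L (b + (L : ZMod (2 * L))) := by
  have hL : 0 < L := Nat.pos_of_ne_zero (NeZero.ne L)
  have : NeZero (2 * L) := ⟨by omega⟩
  funext i
  unfold opp oc
  have h0 : (L : ZMod (2 * L)).val = L := by
    rw [ZMod.val_natCast]; exact Nat.mod_eq_of_lt (by omega)
  have h2 : i - b = (i - (b + (L : ZMod (2 * L)))) + (L : ZMod (2 * L)) := by ring
  have h3 : (i - b).val = ((i - (b + (L : ZMod (2 * L)))).val + L) % (2 * L) := by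
    conv_lhs => rw [h2]
    rw [ZMod.val_add, h0]
  have h4 : (i - (b + (L : ZMod (2 * L)))).val < 2 * L := ZMod.val_lt _
  set s := (i - (b + (L : ZMod (2 * L)))).val with hs
  rw [h3]
  rcases lt_or_ge s L with h | h
  · have e : (s + L) % (2 * L) = s + L := Nat.mod_eq_of_lt (by omega)
    rw [e]
    simp [h]
  · have e : (s + L) % (2 * L) = s - L := by
      have : s + L = (s - L) + 2 * L := by omega
      rw [this, Nat.add_mod_right]
      exact Nat.mod_eq_of_lt (by omega)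
    rw [e]
    have h5 : s - L < L := by omega
    have h6 : ¬ s < L := by omega
    simp [h5, h6]

lemma real_sub_le (a b : ℕ) : (a : ℝ) - b ≤ ((a - b : ℕ) : ℝ) := by
  rcases le_total b a with h | h
  · rw [Nat.cast_sub h]
  · rw [Nat.sub_eq_zero_of_le h]
    have : (a : ℝ) ≤ b := by exact_mod_cast h
    simp only [Nat.cast_zero]
    linarith

lemma sub_min_le {R M : ℕ} (hR : R ≤ M) (x : ℕ) :
    (R : ℝ) - ((min x M : ℕ) : ℝ) ≤ ((R - x : ℕ) : ℝ) := by
  rcases le_total x M with h | h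
  · rw [min_eq_left h]; exact real_sub_le R x
  · rw [min_eq_right h]
    have h1 : (R : ℝ) ≤ M := by exact_mod_cast hR
    have h2 : (0 : ℝ) ≤ ((R - x : ℕ) : ℝ) := Nat.cast_nonneg _
    linarith

/-- averaging the tents over a `Lam` measure -/
lemma lam_tent {w c : _} (hc : Lam (L := L) w c) {R : ℕ} (hR : R ≤ L) (q : ZMod (2 * L)) :
    (R : ℝ) - hd (oc L q) w ≤ ∑ a, c a * ((R - hd (oc L q) (oc L a) : ℕ) : ℝ) := by
  have h1 : ∑ a, c a * ((R : ℝ) - ((min (hd (oc L q) (oc L a)) L : ℕ) : ℝ))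
      ≤ ∑ a, c a * ((R - hd (oc L q) (oc L a) : ℕ) : ℝ) :=
    Finset.sum_le_sum fun a _ => mul_le_mul_of_nonneg_left (sub_min_le hR _) (hc.nonneg a)
  refine le_trans ?_ h1
  have h2 : ∑ a, c a * ((R : ℝ) - ((min (hd (oc L q) (oc L a)) L : ℕ) : ℝ))
      = R - ∑ a, c a * ((min (hd (oc L q) (oc L a)) L : ℕ) : ℝ) := by
    simp only [mul_sub, Finset.sum_sub_distrib, ← Finset.sum_mul, hc.sum, one_mul]
  rw [h2]
  linarith [hc.le q]

theorem ker (U V : ZMod (2 * L) → Bool) (_hU : Anti L U) (_hV : Anti L V)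
    (h : ∃ p : ZMod (2 * L), hd (oc L p) U + hd (oc L p) (opp V) = hd U (opp V))
    (c d : ZMod (2 * L) → ℝ) (hc : Lam U c) (hd' : Lam V d) (r : ℕ) (hr : 2 * r ≤ L) :
    ((2 * r - hd U (opp V) : ℕ) : ℝ) ≤
      ∑ a, ∑ b, c a * d b * ((2 * r - hd (oc L a) (opp (oc L b)) : ℕ) : ℝ) := by
  obtain ⟨p, hp⟩ := h
  have hnn : 0 ≤ ∑ a, ∑ b, c a * d b * ((2 * r - hd (oc L a) (opp (oc L b)) : ℕ) : ℝ) :=
    Finset.sum_nonneg fun a _ => Finset.sum_nonneg fun b _ =>
      mul_nonneg (mul_nonneg (hc.nonneg a) (hd'.nonneg b)) (Nat.cast_nonneg _)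
  rcases le_or_gt (2 * r) (hd (oc L p) U) with h0 | h0
  · have : 2 * r - hd U (opp V) = 0 := by omega
    rw [this]; simpa using hnn
  -- the inner sums
  have hin : ∀ b, ((2 * r - hd (oc L p) U - hd (oc L (p + (L : ZMod (2 * L)))) (oc L b) : ℕ) : ℝ)
      ≤ ∑ a, c a * ((2 * r - hd (oc L a) (opp (oc L b)) : ℕ) : ℝ) := by
    intro b
    have e1 : ∀ a, hd (oc L a) (opp (oc L b)) = hd (oc L (b + (L : ZMod (2 * L)))) (oc L a) := by
      intro a; rw [opp_oc, hd_comm]
    simp only [e1]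
    have h1 := lam_tent hc hr (b + (L : ZMod (2 * L)))
    have h2 : 0 ≤ ∑ a, c a * ((2 * r - hd (oc L (b + (L : ZMod (2 * L)))) (oc L a) : ℕ) : ℝ) :=
      Finset.sum_nonneg fun a _ => mul_nonneg (hc.nonneg a) (Nat.cast_nonneg _)
    have h3 : hd (oc L (b + (L : ZMod (2 * L)))) U
        ≤ hd (oc L (p + (L : ZMod (2 * L)))) (oc L b) + hd (oc L p) U := by
      have e2 : hd (oc L (p + (L : ZMod (2 * L)))) (oc L b)
          = hd (oc L (b + (L : ZMod (2 * L)))) (oc L p) := by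
        rw [← opp_oc, ← opp_oc, hd_opp_left, hd_comm]
      rw [e2]
      exact hd_triangle _ _ _
    rcases le_total (hd (oc L (p + (L : ZMod (2 * L)))) (oc L b)) (2 * r - hd (oc L p) U) with h4 | h4
    · have h5 : ((2 * r - hd (oc L p) U - hd (oc L (p + (L : ZMod (2 * L)))) (oc L b) : ℕ) : ℝ)
          = (2 * r : ℕ) - hd (oc L p) U - hd (oc L (p + (L : ZMod (2 * L)))) (oc L b) := by
        rw [Nat.cast_sub h4, Nat.cast_sub h0.le]
      have h6 : (hd (oc L (b + (L : ZMod (2 * L)))) U : ℝ)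
        ≤ hd (oc L (p + (L : ZMod (2 * L)))) (oc L b) + hd (oc L p) U := by exact_mod_cast h3
      rw [h5]
      linarith
    · rw [Nat.sub_eq_zero_of_le h4]
      simpa using h2
  have h1 : ∑ b, d b * ((2 * r - hd (oc L p) U - hd (oc L (p + (L : ZMod (2 * L)))) (oc L b) : ℕ) : ℝ)
      ≤ ∑ b, d b * ∑ a, c a * ((2 * r - hd (oc L a) (opp (oc L b)) : ℕ) : ℝ) :=
    Finset.sum_le_sum fun b _ => mul_le_mul_of_nonneg_left (hin b) (hd'.nonneg b)
  have h2 : ∑ b, d b * ∑ a, c a * ((2 * r - hd (oc L a) (opp (oc L b)) : ℕ) : ℝ)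
      = ∑ a, ∑ b, c a * d b * ((2 * r - hd (oc L a) (opp (oc L b)) : ℕ) : ℝ) := by
    rw [Finset.sum_comm]
    apply Finset.sum_congr rfl
    intro b _
    rw [Finset.mul_sum]
    apply Finset.sum_congr rfl
    intro a _
    ring
  rw [h2] at h1
  have h3 := lam_tent hd' (R := 2 * r - hd (oc L p) U) (by omega) (p + (L : ZMod (2 * L)))
  have h4 : hd (oc L (p + (L : ZMod (2 * L)))) V = hd (oc L p) (opp V) := by
    rw [← opp_oc, hd_opp_left]
  rw [h4, Nat.cast_sub h0.le] at h3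
  have h5 : (hd (oc L p) U : ℝ) + hd (oc L p) (opp V) = hd U (opp V) := by exact_mod_cast hp
  rcases le_total (hd U (opp V)) (2 * r) with h6 | h6
  · rw [Nat.cast_sub h6]
    linarith
  · rw [Nat.sub_eq_zero_of_le h6]
    simpa using hnn

end Pool.Agent.H42.EH
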